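import Pool.Agent.helper12.TY.Spec

set_option autoImplicit false

namespace Pool.Agent.TY

open Pool.Agent.helper58.DC Pool.Agent.DI Pool.Agent.GR Pool.Agent.OB Pool.Agent.TZ

/-- the diagonal map as a homomorphism -/
def YHY_dgh (p : ℕ) (G : Type) [Group G] : G →* WG p G where
  toFun a := dg p a
  map_one' := by
    refine KE.ext ?_ ?_
    · rfl
    · funext t
      rfl
  map_mul' a b := by
    refine KE.ext ?_ ?_
    · exact (one_mul (1 : Tp p)).symm
    · funext t
      rfl

theorem YHY_dgpow (p : ℕ) (G : Type) [Group G] (a : G) (n : ℕ) : dg p a ^ n = dg p (a ^ n) :=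
  (map_pow (YHY_dgh p G) a n).symm

/-- the elements of `DW p H` as pairs -/
noncomputable def YHY_equiv (p : ℕ) (G : Type) [Group G] (H : Subgroup G) :
    DW p H ≃ Tp p × (Tp p → H) where
  toFun x := (x.1.l, fun t => ⟨x.1.f t, x.2 t⟩)
  invFun y := ⟨⟨y.1, fun t => (y.2 t : G), fun _ => rfl⟩, fun t => (y.2 t).2⟩
  left_inv x := by
    apply Subtype.ext
    refine KE.ext ?_ ?_
    · rfl
    · rfl
  right_inv y := rfl

theorem YHY_card (p : ℕ) [Fact p.Prime] (G : Type) [Group G] [Finite G] (H : Subgroup G) :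
    Nat.card (DW p H) = p * Nat.card H ^ p := by
  rw [Nat.card_congr (YHY_equiv p G H), Nat.card_prod, Nat.card_fun]
  have h1 : Nat.card (Tp p) = p := by
    rw [Nat.card_congr Multiplicative.toAdd, Nat.card_zmod]
  rw [h1]

theorem YHY_cent (p : ℕ) (G : Type) [Group G] (g : G) :
    Subgroup.centralizer ({dg p g} : Set (WG p G)) = DW p (Subgroup.centralizer ({g} : Set G)) := by
  ext x
  rw [Subgroup.mem_centralizer_singleton_iff]
  constructor
  · intro h t
    rw [Subgroup.mem_centralizer_singleton_iff]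
    have h1 := congrArg (fun y : WG p G => y.f t) h
    simp only [KE.mul_f] at h1
    have h2 : (dg p g).l • t = t := one_smul _ t
    rw [h2] at h1
    exact h1
  · intro h
    refine KE.ext ?_ ?_
    · rw [KE.mul_l, KE.mul_l]
      exact mul_comm _ _
    · funext t
      rw [KE.mul_f, KE.mul_f]
      have h2 : (dg p g).l • t = t := one_smul _ t
      rw [h2]
      have h3 := h t
      rw [Subgroup.mem_centralizer_singleton_iff] at h3
      exact h3

/-- the product of the classes of the components -/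
noncomputable def YHY_psi (p : ℕ) [Fact p.Prime] (G : Type) [Group G] (D : Subgroup G) :
    DW p D →* Abelianization D where
  toFun x := ∏ t : Tp p, Abelianization.of (⟨x.1.f t, x.2 t⟩ : D)
  map_one' := by
    refine Finset.prod_eq_one ?_
    intro t _
    exact map_one _
  map_mul' a b := by
    have h1 : ∀ t : Tp p, Abelianization.of (⟨(a * b).1.f t, (a * b).2 t⟩ : D) =
        Abelianization.of (⟨a.1.f (b.1.l • t), a.2 (b.1.l • t)⟩ : D) *
          Abelianization.of (⟨b.1.f t, b.2 t⟩ : D) := by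
      intro t
      rw [← map_mul]
      rfl
    rw [Finset.prod_congr rfl (fun t _ => h1 t), Finset.prod_mul_distrib]
    refine congrArg (· * _) ?_
    exact Fintype.prod_equiv (MulAction.toPerm b.1.l) _ _ (fun t => rfl)

theorem YHY (hYWO : YWO_stmt) (hC3 : Pool.Agent.DI.C3_stmt) (hTI : TI_stmt) : YHY_stmt := by
  intro p c m _ M hS G _ _ χ g D hHy b hb hcov
  have hp : p.Prime := Fact.out
  have hfin : Finite (WG p G) := by
    have e : WG p G ≃ Tp p × (Tp p → G) :=
      { toFun := fun x => (x.l, x.f)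
        invFun := fun y => ⟨y.1, y.2, fun _ => rfl⟩
        left_inv := fun x => rfl
        right_inv := fun y => rfl }
    exact Finite.of_equiv _ e.symm
  have hincl : dg p g = (WX p G).inc (fun _ => g) := rfl
  have hpcard : ∀ l : Tp p, l ^ p = 1 := by
    intro l
    have h1 : Nat.card (Tp p) = p := by
      rw [Nat.card_congr Multiplicative.toAdd, Nat.card_zmod]
    have h2 := pow_card_eq_one' (x := l)
    rwa [h1] at h2
  have hDp : ∃ n : ℕ, Nat.card D = p ^ n := (IsPGroup.iff_card).mp hHy.pgrp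
  refine { irr := hb, le := ?_, pgrp := ?_, card := ?_, om := ?_, el := ?_, mem := ?_, ne := ?_ }
  · rw [YHY_cent]
    intro x hx t
    exact hHy.le (hx t)
  · obtain ⟨n, hn⟩ := hDp
    rw [IsPGroup.iff_card]
    refine ⟨1 + n * p, ?_⟩
    rw [YHY_card, hn, pow_add, pow_one, pow_mul]
  · rw [YHY_card, YHY_cent]
    unfold pp
    rw [YHY_card]
    have h1 : Nat.card D = p ^ padicValNat p (Nat.card (Subgroup.centralizer ({g} : Set G))) :=
      hHy.card
    have h2 : Nat.card (Subgroup.centralizer ({g} : Set G)) ≠ 0 := Nat.card_pos.ne'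
    rw [padicValNat.mul hp.ne_zero (pow_ne_zero _ h2), padicValNat.pow, padicValNat_self, h1,
      pow_add, pow_one, ← pow_mul, mul_comm p (padicValNat p _)]
  · intro hin
    have h1 := hcov (dg p g) ⟨_, hincl.symm⟩
    have h2 := hYWO p G χ g 1
    rw [one_mul, inv_one, mul_one] at h2
    rw [h2] at h1
    have h3 := InM.of_mcong hS h1
    have h4 : InM M (omega χ g ^ p) := by
      have h5 := hin.sub hS h3
      have h6 : omega b (dg p g) - (omega b (dg p g) - omega χ g ^ p) = omega χ g ^ p := by ring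
      rwa [h6] at h5
    have h7 : IsIntegral ℤ (omega χ g) :=
      (hC3 G).2.2.2 ⊤ χ ((hTI G χ).mpr hHy.irr) g
    exact hHy.om (InM.of_pow hS (IntAt.of_isIntegral hS h7) h4)
  · intro u
    have h1 : (u ^ p).l = 1 := by
      have h2 : (WX p G).proj (u ^ p) = 1 := by
        rw [map_pow]
        exact hpcard _
      exact h2
    obtain ⟨x, hx⟩ := ((WX p G).exact (u ^ p)).mp h1
    have h3 : ∀ t : Tp p, ∃ k : ℕ, ((x t) ^ m) ^ p ^ k = 1 := fun t => hHy.el (x t)
    choose k hk using h3
    refine ⟨1 + ∑ t : Tp p, k t, ?_⟩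
    have h4 : ∀ t : Tp p, ((x t) ^ m) ^ p ^ (∑ s : Tp p, k s) = 1 := by
      intro t
      have h5 : k t ≤ ∑ s : Tp p, k s := Finset.single_le_sum (fun _ _ => Nat.zero_le _) (Finset.mem_univ t)
      obtain ⟨j, hj⟩ := pow_dvd_pow p h5
      rw [hj, pow_mul, hk, one_pow]
    rw [pow_add, pow_one, ← pow_mul, ← mul_assoc, mul_comm m p, mul_assoc, pow_mul, pow_mul (u ^ p), ← hx,
      ← map_pow, ← map_pow]
    have h6 : (x ^ m) ^ p ^ (∑ s : Tp p, k s) = 1 := by
      funext t
      exact h4 t
    rw [h6, map_one]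
  · rw [YHY_dgpow]
    intro t
    exact hHy.mem
  · rw [YHY_dgpow, YHY_dgpow]
    intro hmem
    rw [← Subgroup.map_subtype_commutator] at hmem
    obtain ⟨y, hy, hyx⟩ := hmem
    have h1 : YHY_psi p G D y = 1 := Abelianization.commutator_subset_ker (YHY_psi p G D) hy
    have ha : (g ^ m) ^ p ^ c ∈ D := D.pow_mem hHy.mem _
    have h2 : ∀ t : Tp p, (⟨y.1.f t, y.2 t⟩ : D) = ⟨(g ^ m) ^ p ^ c, ha⟩ := by
      intro t
      apply Subtype.ext
      have h3 : y.1 = dg p ((g ^ m) ^ p ^ c) := hyx
      have h4 := congrArg (fun z : WG p G => z.f t) h3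
      exact h4
    have h5 : YHY_psi p G D y = Abelianization.of (⟨(g ^ m) ^ p ^ c, ha⟩ : D) ^ p := by
      have h6 : YHY_psi p G D y = ∏ t : Tp p, Abelianization.of (⟨y.1.f t, y.2 t⟩ : D) := rfl
      rw [h6, Finset.prod_congr rfl (fun t _ => by rw [h2 t]), Finset.prod_const, Finset.card_univ]
      have h7 : Fintype.card (Tp p) = p := by
        rw [← Nat.card_eq_fintype_card, Nat.card_congr Multiplicative.toAdd, Nat.card_zmod]
      rw [h7]
    rw [h1, ← map_pow] at h5
    have h8 : (⟨(g ^ m) ^ p ^ c, ha⟩ : D) ^ p ∈ commutator D := by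
      rw [← Abelianization.ker_of, MonoidHom.mem_ker]
      exact h5.symm
    apply hHy.ne
    rw [← Subgroup.map_subtype_commutator]
    refine ⟨_, h8, ?_⟩
    change (((g ^ m) ^ p ^ c) ^ p : G) = (g ^ m) ^ p ^ (c + 1)
    rw [← pow_mul, ← pow_succ]

end Pool.Agent.TY
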